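import Pool.Agent.H91.RF.TargetsA

/-! Module EXPB: expansion of balls over a base level. -/

open MeasureTheory Set Filter Topology Metric
open Pool.Agent.H91.RD

namespace Pool.Agent.H85.RF.EXPB

open Pool.Agent.H91.RF

/-- the radial profile in the variable `√(1 + r²)` -/
noncomputable def GG (q : ℝ → ℝ) (ρ s : ℝ) : ℝ := q (√(s ^ 2 - 1) - ρ)

lemma hasDerivAt_sq {s : ℝ} (hs : 1 < s) : HasDerivAt (fun s : ℝ => √(s ^ 2 - 1)) (s / √(s ^ 2 - 1)) s := by
  have h1 : HasDerivAt (fun s : ℝ => s ^ 2 - 1) (2 * s) s := by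
    have := (hasDerivAt_pow 2 s).sub_const 1
    refine this.congr_deriv ?_
    simp
  have h2 : s ^ 2 - 1 ≠ 0 := by nlinarith
  refine (h1.sqrt h2).congr_deriv ?_
  rw [mul_div_mul_left _ _ two_ne_zero]

lemma pos_sq {s : ℝ} (hs : 1 < s) : 0 < √(s ^ 2 - 1) := Real.sqrt_pos.2 (by nlinarith)

lemma hasDerivAt_quot {s : ℝ} (hs : 1 < s) :
    HasDerivAt (fun s : ℝ => s / √(s ^ 2 - 1)) (-(1 / √(s ^ 2 - 1) ^ 3)) s := by
  have h0 := pos_sq hs
  refine ((hasDerivAt_id s).div (hasDerivAt_sq hs) h0.ne').congr_deriv ?_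
  have h1 : √(s ^ 2 - 1) ^ 2 = s ^ 2 - 1 := Real.sq_sqrt (by nlinarith)
  simp only [id]
  field_simp
  rw [h1]
  ring

lemma hasDerivAt_G {q : ℝ → ℝ} (hq : ContDiff ℝ 2 q) (ρ : ℝ) {s : ℝ} (hs : 1 < s) :
    HasDerivAt (GG q ρ) (deriv q (√(s ^ 2 - 1) - ρ) * (s / √(s ^ 2 - 1))) s := by
  have h1 : HasDerivAt q (deriv q (√(s ^ 2 - 1) - ρ)) (√(s ^ 2 - 1) - ρ) :=
    (hq.differentiable (by norm_num) _).hasDerivAt
  exact h1.comp s ((hasDerivAt_sq hs).sub_const ρ)

lemma hasDerivAt_G' {q : ℝ → ℝ} (hq : ContDiff ℝ 2 q) (ρ : ℝ) {s : ℝ} (hs : 1 < s) :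
    HasDerivAt (fun s : ℝ => deriv q (√(s ^ 2 - 1) - ρ) * (s / √(s ^ 2 - 1)))
      (deriv (deriv q) (√(s ^ 2 - 1) - ρ) * (s / √(s ^ 2 - 1)) * (s / √(s ^ 2 - 1)) +
        deriv q (√(s ^ 2 - 1) - ρ) * (-(1 / √(s ^ 2 - 1) ^ 3))) s := by
  have hq1 : ContDiff ℝ 1 (deriv q) := hq.deriv' 
  have h1 : HasDerivAt (deriv q) (deriv (deriv q) (√(s ^ 2 - 1) - ρ)) (√(s ^ 2 - 1) - ρ) :=
    (hq1.differentiable (by norm_num) _).hasDerivAt
  exact (h1.comp s ((hasDerivAt_sq hs).sub_const ρ)).mul (hasDerivAt_quot hs)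

lemma G_near {q : ℝ → ℝ} {ℓ ρ : ℝ} (hq0 : ∀ z ≤ 0, q z = ℓ) (hρ : 0 < ρ) {s : ℝ} (hs : s ^ 2 ≤ 1) :
    GG q ρ =ᶠ[𝓝 s] fun _ => ℓ := by
  have hc : Continuous fun s : ℝ => √(s ^ 2 - 1) - ρ := by fun_prop
  have h1 : √(s ^ 2 - 1) - ρ < 0 := by
    rw [Real.sqrt_eq_zero_of_nonpos (by linarith)]
    linarith
  filter_upwards [(hc.tendsto s).eventually (gt_mem_nhds h1)] with z hz
  exact hq0 _ hz.le

lemma contDiff_G {q : ℝ → ℝ} {ℓ ρ : ℝ} (hq : ContDiff ℝ 2 q) (hq0 : ∀ z ≤ 0, q z = ℓ) (hρ : 0 < ρ) :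
    ContDiff ℝ 2 (GG q ρ) := by
  rw [contDiff_iff_contDiffAt]
  intro s
  rcases le_or_gt (s ^ 2) 1 with h | h
  · exact contDiffAt_const.congr_of_eventuallyEq (G_near hq0 hρ h)
  · have h1 : ContDiffAt ℝ 2 (fun s : ℝ => √(s ^ 2 - 1) - ρ) s := by
      refine ContDiffAt.sub (ContDiffAt.sqrt ?_ (by linarith)) contDiffAt_const
      exact ((contDiff_id.pow 2).sub contDiff_const).contDiffAt
    exact (hq.contDiffAt).comp s h1

lemma deriv_neg_zero {q : ℝ → ℝ} {ℓ : ℝ} (hq0 : ∀ z ≤ 0, q z = ℓ) {z : ℝ} (hz : z < 0) :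
    deriv q z = 0 ∧ deriv (deriv q) z = 0 := by
  have h1 : q =ᶠ[𝓝 z] fun _ => ℓ := by
    filter_upwards [gt_mem_nhds hz] with w hw
    exact hq0 w hw.le
  have h2 : deriv q =ᶠ[𝓝 z] fun _ => (0 : ℝ) := by
    have := h1.deriv
    simpa using this
  refine ⟨h2.eq_of_nhds, ?_⟩
  rw [h2.deriv_eq]
  simp

/-- Laplacian of a radial function which is constant near the origin -/
lemma radial (hRAD : T_RAD) {N : ℕ} {q : ℝ → ℝ} {ℓ ρ : ℝ} (hq : ContDiff ℝ 2 q) (hq0 : ∀ z ≤ 0, q z = ℓ)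
    (hρ : 0 < ρ) (x0 : E N) :
    ContDiff ℝ 2 (fun x : E N => q (‖x - x0‖ - ρ)) ∧
    ∀ x : E N, Laplacian.laplacian (fun x : E N => q (‖x - x0‖ - ρ)) x =
      deriv (deriv q) (‖x - x0‖ - ρ) + (N - 1) / ‖x - x0‖ * deriv q (‖x - x0‖ - ρ) := by
  obtain ⟨h1, h2⟩ := hRAD N 1 x0 (GG q ρ) one_pos (contDiff_G hq hq0 hρ)
  have hfun : (fun x : E N => GG q ρ (√(1 ^ 2 + ‖x - x0‖ ^ 2))) = fun x : E N => q (‖x - x0‖ - ρ) := by
    funext x
    unfold GG
    rw [Real.sq_sqrt (by positivity)]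
    congr 2
    rw [show (1 : ℝ) ^ 2 + ‖x - x0‖ ^ 2 - 1 = ‖x - x0‖ ^ 2 by ring, Real.sqrt_sq (norm_nonneg _)]
  rw [hfun] at h1 h2
  refine ⟨h1, fun x => ?_⟩
  rw [h2 x]
  set r := ‖x - x0‖ with hr
  have hr0 : 0 ≤ r := norm_nonneg _
  set s := √(1 ^ 2 + r ^ 2) with hs
  have hs2 : s ^ 2 = 1 + r ^ 2 := by
    rw [hs, Real.sq_sqrt (by positivity)]; ring
  have hs0 : 0 ≤ s := Real.sqrt_nonneg _
  have hsr : √(s ^ 2 - 1) = r := by
    rw [hs2, show 1 + r ^ 2 - 1 = r ^ 2 by ring, Real.sqrt_sq hr0]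
  unfold radL
  rcases eq_or_lt_of_le hr0 with h | h
  · -- `r = 0`
    have hs1 : s = 1 := by
      have : s ^ 2 = 1 := by rw [hs2, ← h]; ring
      nlinarith
    have h3 : GG q ρ =ᶠ[𝓝 s] fun _ => ℓ := G_near hq0 hρ (by rw [hs1]; norm_num)
    have h4 : deriv (GG q ρ) =ᶠ[𝓝 s] fun _ => (0 : ℝ) := by
      have := h3.deriv
      simpa using this
    have h5 := deriv_neg_zero hq0 (show r - ρ < 0 by linarith)
    rw [h4.deriv_eq, h4.eq_of_nhds, h5.1, h5.2]
    simp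
  · have hs1 : 1 < s := by
      have : 1 < s ^ 2 := by rw [hs2]; nlinarith
      nlinarith
    have h3 : deriv (GG q ρ) =ᶠ[𝓝 s] fun s : ℝ => deriv q (√(s ^ 2 - 1) - ρ) * (s / √(s ^ 2 - 1)) := by
      filter_upwards [lt_mem_nhds hs1] with w hw
      exact (hasDerivAt_G hq ρ hw).deriv
    rw [h3.deriv_eq, h3.eq_of_nhds, (hasDerivAt_G' hq ρ hs1).deriv, hsr]
    have hr1 : r ≠ 0 := h.ne'
    have hs3 : s ≠ 0 := by linarith
    have e1 : 1 - 1 ^ 2 / s ^ 2 = r ^ 2 / s ^ 2 := by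
      rw [eq_div_iff (by positivity), sub_mul, div_mul_cancel₀ _ (by positivity), hs2]
      ring
    rw [e1]
    field_simp
    ring

/-- **EXPB.** -/
theorem pf_EXPB (hMP0 : T_MP0) (hRAD : T_RAD) : T_EXPB := by
  intro N f K cs m ℓ z1 c' q hN hL hm0 hmℓ hℓ1 hz1 hq hq0 hqd hqz1 hqm hqz hC hode hfℓ hc' hc's
  obtain ⟨C, hC⟩ := hC
  have hqd' : ∀ z ≤ z1, deriv q z ≤ 0 := by
    intro z hz
    rcases lt_trichotomy z 0 with h | h | h
    · rw [(deriv_neg_zero hq0 h).1]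
    · subst h
      have hcont : Continuous (deriv q) := hq.continuous_deriv (by norm_num)
      have h1 : Tendsto (deriv q) (𝓝[<] 0) (𝓝 (deriv q 0)) := (hcont.tendsto 0).mono_left nhdsWithin_le_nhds
      refine le_of_tendsto h1 ?_
      filter_upwards [self_mem_nhdsWithin] with w hw
      rw [(deriv_neg_zero hq0 hw).1]
    · exact (hqd z ⟨h, hz⟩).le
  have hqle : ∀ z, q z ≤ ℓ := by
    intro z
    rcases le_or_gt z 0 with h | h
    · rw [hq0 z h]
    · rcases le_or_gt z z1 with h' | h'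
      · have hanti : AntitoneOn q (Icc 0 z1) := by
          refine antitoneOn_of_deriv_nonpos (convex_Icc _ _) hq.continuous.continuousOn
            (hq.differentiable (by norm_num)).differentiableOn fun x hx => ?_
          rw [interior_Icc] at hx
          exact hqd' x hx.2.le
        have := hanti (left_mem_Icc.2 hz1.le) ⟨h.le, h'⟩ h.le
        rw [hq0 0 le_rfl] at this
        exact this
      · exact (hqm z h'.le).trans hmℓ.le
  set R2 : ℝ := max 1 ((N - 1) / (cs - c')) with hR2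
  have hR21 : 1 ≤ R2 := le_max_left _ _
  have hR2N : ∀ r, R2 ≤ r → (N - 1) / r ≤ cs - c' := by
    intro r hr
    have h1 : (N - 1) / (cs - c') ≤ r := (le_max_right _ _).trans hr
    rw [div_le_iff₀ (by linarith)] at h1
    rw [div_le_iff₀ (by linarith)]
    linarith
  refine ⟨z1 + 2, z1 + 2 + R2, by linarith, by linarith, ?_⟩
  intro v hv hv01 t0 ht0 x0 R hR s hs hball hbase y hy
  rcases eq_or_lt_of_le hs with h0 | hspos
  · rw [← h0, add_zero]
    refine hball y (mem_closedBall.2 ?_)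
    rw [← h0] at hy
    linarith
  set ρ : ℝ → ℝ := fun τ => R - (z1 + 2) + c' * τ with hρ
  have hρR2 : ∀ τ, 0 ≤ τ → R2 ≤ ρ τ := by
    intro τ hτ
    have : 0 ≤ c' * τ := mul_nonneg hc'.le hτ
    simp only [hρ]
    linarith
  set Z : ℝ → E N → ℝ := fun τ x => v (t0 + τ) x - q (‖x - x0‖ - ρ τ) with hZ
  have hZneg : ∀ τ ∈ Icc 0 s, ∀ x, Z τ x < 0 → ‖x - x0‖ - ρ τ < z1 := by
    intro τ hτ x hZx
    by_contra hcon
    push Not at hcon
    have hZx' : v (t0 + τ) x < q (‖x - x0‖ - ρ τ) := by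
      have : v (t0 + τ) x - q (‖x - x0‖ - ρ τ) < 0 := hZx
      linarith
    rcases le_or_gt (dist x x0) (R + c' * τ) with h | h
    · have h1 := hbase τ hτ x h
      have h2 := hqm _ hcon
      linarith
    · have h1 : z1 + 1 ≤ ‖x - x0‖ - ρ τ := by
        rw [dist_eq_norm] at h
        simp only [hρ]
        linarith
      have h2 := hqz _ h1
      have h3 := (hv01 (t0 + τ) (by linarith [hτ.1]) x).1
      linarith
  have hmain := hMP0 N K 0 s C Z hL.K0.le hspos ?_ ?_ ?_ ?_ s ⟨hs, le_rfl⟩ y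
  · have h1 : ‖y - x0‖ - ρ s ≤ 0 := by
      rw [dist_eq_norm] at hy
      simp only [hρ]
      linarith
    have h2 : 0 ≤ v (t0 + s) y - q (‖y - x0‖ - ρ s) := hmain
    rw [hq0 _ h1] at h2
    linarith
  · -- continuity
    refine ContinuousOn.sub ?_ ?_
    · refine hv.cont.comp (f := fun p : ℝ × E N => (t0 + p.1, p.2)) (by fun_prop) ?_
      rintro ⟨τ, x⟩ ⟨hτ, _⟩
      refine ⟨?_, mem_univ _⟩
      show 0 < t0 + τ
      linarith [hτ.1]
    · refine Continuous.continuousOn (hq.continuous.comp ?_)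
      simp only [hρ]
      fun_prop
  · -- lower bound
    intro t ht x
    have h1 := (hv01 (t0 + t) (by linarith [ht.1]) x).1
    have h2 := hC (‖x - x0‖ - ρ t)
    have h3 := le_abs_self (q (‖x - x0‖ - ρ t))
    have h4 := abs_nonneg (deriv q (‖x - x0‖ - ρ t))
    have h5 := abs_nonneg (deriv (deriv q) (‖x - x0‖ - ρ t))
    show -C ≤ v (t0 + t) x - q (‖x - x0‖ - ρ t)
    linarith
  · -- the differential inequality
    intro t ht x hZx
    have htI : t ∈ Icc 0 s := ⟨ht.1.le, ht.2⟩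
    have hz := hZneg t htI x hZx
    have hρpos : 0 < ρ t := by linarith [hρR2 t ht.1.le]
    obtain ⟨hS1, hS2⟩ := radial hRAD (N := N) hq hq0 hρpos x0
    have hvt : 0 < t0 + t := by linarith [ht.1]
    have hv2 : ContDiffAt ℝ 2 (v (t0 + t)) x := (hv.c2 _ hvt).contDiffAt
    have hd1 : HasDerivAt (fun τ => v (t0 + τ) x) (deriv (fun s => v s x) (t0 + t)) t :=
      HasDerivAt.comp_const_add t0 t (hv.dt _ hvt x).hasDerivAt
    have hd2 : HasDerivAt (fun τ => q (‖x - x0‖ - ρ τ)) (deriv q (‖x - x0‖ - ρ t) * (-c')) t := by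
      have h1 : HasDerivAt (fun τ => ‖x - x0‖ - ρ τ) (-c') t := by
        have h2 : HasDerivAt ρ c' t := by
          refine (((hasDerivAt_id t).const_mul c').const_add (R - (z1 + 2))).congr_deriv ?_
          rw [mul_one]
        exact h2.const_sub _
      exact ((hq.differentiable (by norm_num) _).hasDerivAt).comp t h1
    have hd := hd1.sub hd2
    refine ⟨hv2.sub hS1.contDiffAt, hd.differentiableAt, ?_⟩
    have hlap : Laplacian.laplacian (Z t) x = Laplacian.laplacian (v (t0 + t)) x -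
        Laplacian.laplacian (fun x : E N => q (‖x - x0‖ - ρ t)) x := hv2.laplacian_sub hS1.contDiffAt
    have hder : deriv (fun s => Z s x) t = deriv (fun s => v s x) (t0 + t) -
        deriv q (‖x - x0‖ - ρ t) * (-c') := hd.deriv
    rw [hlap, hder, hS2, hv.eqn _ hvt x]
    set w := ‖x - x0‖ - ρ t with hw
    have hode' := hode w hz.le
    have hqneg := hqd' w hz.le
    have hZeq : Z t x = v (t0 + t) x - q w := rfl
    have hlip : K * (v (t0 + t) x - q w) ≤ f (v (t0 + t) x) - f (q w) := by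
      have h1 := hL.lip (v (t0 + t) x) (q w)
      rw [hZeq] at hZx
      rw [abs_of_neg hZx] at h1
      have h2 := neg_abs_le (f (v (t0 + t) x) - f (q w))
      linarith
    have hkey : (N - 1) / ‖x - x0‖ * deriv q w ≥ (cs - c') * deriv q w := by
      rcases le_or_gt w 0 with h | h
      · have : deriv q w = 0 := by
          rcases eq_or_lt_of_le h with h' | h'
          · have hcont : Continuous (deriv q) := hq.continuous_deriv (by norm_num)
            have h1 : Tendsto (deriv q) (𝓝[<] 0) (𝓝 (deriv q 0)) :=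
              (hcont.tendsto 0).mono_left nhdsWithin_le_nhds
            have h2 : Tendsto (deriv q) (𝓝[<] 0) (𝓝 0) := by
              refine tendsto_const_nhds.congr' ?_
              filter_upwards [self_mem_nhdsWithin] with u hu
              exact ((deriv_neg_zero hq0 hu).1).symm
            rw [h']
            exact tendsto_nhds_unique h1 h2
          · exact (deriv_neg_zero hq0 h').1
        rw [this]; simp
      · have h1 : R2 ≤ ‖x - x0‖ := by
          have := hρR2 t ht.1.le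
          linarith
        have h2 := hR2N _ h1
        exact mul_le_mul_of_nonpos_right h2 hqneg
    rw [hZeq]
    nlinarith
  · -- initial inequality
    intro x
    show 0 ≤ v (t0 + 0) x - q (‖x - x0‖ - ρ 0)
    rw [add_zero]
    rcases le_or_gt (dist x x0) R with h | h
    · have h1 := hball x (mem_closedBall.2 h)
      have h2 := hqle (‖x - x0‖ - ρ 0)
      linarith
    · have h1 : z1 + 1 ≤ ‖x - x0‖ - ρ 0 := by
        rw [dist_eq_norm] at h
        simp only [hρ]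
        linarith
      have h2 := hqz _ h1
      have h3 := (hv01 t0 ht0 x).1
      linarith

end Pool.Agent.H85.RF.EXPB
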