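import Pool.Agent.H91.RF.TargetsR

/-!
# MP_609556_an, module LIMR: properties of limits at a ratio
-/

open MeasureTheory Set Filter Topology Metric
open Pool.Agent.H29.TF (hk P)
open Pool.Agent.H91.RD
open Pool.Agent.H91.RF

namespace Pool.Agent.H85.RF.LIMR

lemma eps0 {a b c : ℝ} (h : ∀ ε > 0, a ≤ b + ε * c) : a ≤ b := by
  by_contra hlt
  push Not at hlt
  have hc : 0 < 2 * (|c| + 1) := by positivity
  have h1 := h ((a - b) / (2 * (|c| + 1))) (div_pos (by linarith) hc)
  have h2 : (a - b) / (2 * (|c| + 1)) * c ≤ (a - b) / 2 := by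
    have h3 : c ≤ |c| + 1 := (le_abs_self c).trans (by linarith)
    calc (a - b) / (2 * (|c| + 1)) * c ≤ (a - b) / (2 * (|c| + 1)) * (|c| + 1) :=
          mul_le_mul_of_nonneg_left h3 (div_pos (by linarith) hc).le
      _ = (a - b) / 2 := by field_simp
  linarith

/-- a locally uniform limit is a pointwise limit -/
lemma ptw {N : ℕ} {F : Type*} [NormedAddCommGroup F] (g : ℕ → ℝ × E N → F) (g0 : ℝ × E N → F)
    (h : ∀ R > 0, TendstoUniformlyOn g g0 atTop (Icc (-R) R ×ˢ closedBall 0 R)) (t : ℝ)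
    (x : E N) : Tendsto (fun n => g n (t, x)) atTop (𝓝 (g0 (t, x))) := by
  have hR : 0 < |t| + ‖x‖ + 1 := by positivity
  have hx := norm_nonneg x
  have ht := abs_nonneg t
  refine (h _ hR).tendsto_at ⟨⟨?_, ?_⟩, ?_⟩
  · have := neg_abs_le t
    simp only
    linarith
  · have := le_abs_self t
    simp only
    linarith
  · simp only [mem_closedBall, dist_zero_right]
    linarith

/-- a nonpositive solution of the linear equation vanishes in the past of its zeros -/
lemma past0 {N : ℕ} {K : ℝ} {V : ℝ → E N → ℝ} (hKREP : T_KREP) (hKER : T_KER) (hP : Pt K V)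
    {z : ℝ → E N → ℝ} (hz : ∀ a b, a < b → LinD V a b z) (hcz : ∀ s, Continuous (z s))
    (hneg : ∀ t x, z t x ≤ 0) {t : ℝ} {x : E N} (h0 : z t x = 0) {s : ℝ} (hs : s < t) (y : E N) :
    z s y = 0 := by
  have hrep := hKREP N K s t V z hP (hz s t hs) s t le_rfl hs le_rfl x
  obtain ⟨hm, hb, -⟩ := hKER N K V hP
  have hpos : ∀ y, 0 < gk V t x s y := fun y =>
    (mul_pos (Real.exp_pos _) (Pool.Agent.H29.TF.hk_pos (sub_pos.2 hs) _)).trans_le
      (hb s t hs x y).1
  have hgm : Measurable (fun y => gk V t x s y) := (hm s t hs).comp (measurable_const.prodMk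
    measurable_id)
  obtain ⟨M, hM⟩ := (hz s t hs).bdd
  have hint : Integrable (fun y => gk V t x s y * z s y) := by
    have h1 : Integrable (fun y : E N => Real.exp (K * (t - s)) * hk (t - s) (x - y) * M) :=
      ((Pool.Agent.H29.TF.integrable_hk_sub (sub_pos.2 hs) x).const_mul _).mul_const M
    refine h1.mono' (hgm.mul (hcz s).measurable).aestronglyMeasurable (ae_of_all _ fun y => ?_)
    rw [Real.norm_eq_abs, abs_mul, abs_of_pos (hpos y)]
    exact mul_le_mul (hb s t hs x y).2 (hM s ⟨le_rfl, hs.le⟩ y) (abs_nonneg _)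
      ((hpos y).le.trans (hb s t hs x y).2)
  have h2 : (fun y => -(gk V t x s y * z s y)) =ᵐ[volume] 0 := by
    refine (integral_eq_zero_iff_of_nonneg (fun y => ?_) hint.neg).1 ?_
    · exact neg_nonneg.2 (mul_nonpos_of_nonneg_of_nonpos (hpos y).le (hneg s y))
    · show ∫ y, -(gk V t x s y * z s y) = 0
      rw [integral_neg, ← hrep, h0, neg_zero]
  have h3 : z s =ᵐ[volume] fun _ => 0 := by
    filter_upwards [h2] with y hy
    have h4 : gk V t x s y * z s y = 0 := neg_eq_zero.1 hy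
    exact (mul_eq_zero.1 h4).resolve_left (hpos y).ne'
  exact congrFun ((hcz s).ae_eq_iff_eq volume continuous_const |>.1 h3) y

theorem X (hSEQ : T_SEQ) (hCONV : T_CONV) (hKREP : T_KREP) (hKER : T_KER) : T_LIMR := by
  intro N f K cc lo hi C0 C9 η0 U u hS hM hF hK tn xn e w hA hE hL
  have hcc := hM.cpos
  obtain ⟨hsh, -⟩ := hSEQ N U cc hS.condC hS.ne hcc
  obtain ⟨hC2, hdt, hcx, hct, hPt, hLin⟩ :=
    hCONV N f K U u tn xn w hS.reac hS.lip hS.sol hA.1 hE hL
  -- pointwise limits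
  have hu : ∀ t x, Tendsto (fun n => u (tn n + t) (xn n + x)) atTop (𝓝 (w t x)) := fun t x =>
    ptw _ _ hL t x
  have hg : ∀ t x, Tendsto (fun n => fderiv ℝ (u (tn n + t)) (xn n + x)) atTop
      (𝓝 (fderiv ℝ (w t) x)) := fun t x => ptw _ _ hcx t x
  have hdx : ∀ h t x, Tendsto (fun n => dx u h (tn n + t) (xn n + x)) atTop
      (𝓝 (dx w h t x)) := fun h t x =>
    ((ContinuousLinearMap.apply ℝ ℝ h).continuous.tendsto _).comp (hg t x)
  have hgr : ∀ t x, Tendsto (fun n => gr u (tn n + t) (xn n + x)) atTop (𝓝 (gr w t x)) :=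
    fun t x => (hg t x).norm
  have hdt' : ∀ t x, Tendsto (fun n => dt u (tn n + t) (xn n + x)) atTop (𝓝 (dt w t x)) :=
    fun t x => ptw _ _ hct t x
  -- the shifted sequences
  have hAt : ∀ t x, AtSeq U cc (fun n => tn n + t) (fun n => xn n + x) e := fun t x =>
    hsh tn xn e hA (fun _ => t) (fun _ => x) (max |t| ‖x‖)
      (fun n => ⟨le_max_left _ _, le_max_right _ _⟩)
  have hev : ∀ (η T : ℝ), 0 < η → ∀ t x, ∀ᶠ n in atTop, T ≤ tn n + t ∧
      NDir U η (xn n + x) e ∧ |infDist (xn n + x) U - cc * (tn n + t)| ≤ η * (tn n + t) :=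
    fun η T hη t x => ((hAt t x).1.eventually_ge_atTop T).and ((hAt t x).2 η hη)
  have hev0 : ∀ t x, ∀ᶠ n in atTop, 0 < tn n + t := fun t x =>
    (hAt t x).1.eventually_gt_atTop 0
  have hAtR : ∀ Q : ℝ → ℝ → E N → E N → Prop, AtR U cc Q → ∀ ε > 0, ∀ t x, ∀ᶠ n in atTop,
      Q ε (tn n + t) (xn n + x) e := by
    intro Q hQ ε hε t x
    obtain ⟨η, hη, T, hT, h⟩ := hQ ε hε
    filter_upwards [hev η T hη t x] with n hn
    exact h _ hn.1 _ _ hn.2.1 hn.2.2
  have he1 : ‖e‖ = 1 := by
    obtain ⟨n, hn⟩ := (hev 1 0 one_pos 0 0).exists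
    exact hn.2.1.1
  -- (1)
  have h1 : ∀ t x, lo ≤ w t x ∧ w t x ≤ hi := by
    intro t x
    constructor
    · obtain ⟨η, hη, h⟩ := hM.low
      refine eps0 (c := 1) fun ε hε => ?_
      obtain ⟨T, hT, h⟩ := h ε hε
      have h2 : lo - ε ≤ w t x := by
        refine ge_of_tendsto (hu t x) ?_
        filter_upwards [hev η T hη t x] with n hn
        refine h _ hn.1 _ ?_
        have := (abs_le.1 hn.2.2).2
        linarith
      linarith
    · obtain ⟨η, hη, h⟩ := hM.high
      refine eps0 (c := 1) fun ε hε => ?_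
      obtain ⟨T, hT, h⟩ := h ε hε
      have h2 : w t x ≤ hi + ε := by
        refine le_of_tendsto (hu t x) ?_
        filter_upwards [hev η T hη t x] with n hn
        refine h _ hn.1 _ ?_
        have := (abs_le.1 hn.2.2).1
        linarith
      linarith
  -- (2)
  have hpos : ∀ t x, ∀ᶠ n in atTop, 0 < -dx u e (tn n + t) (xn n + x) ∧
      gr u (tn n + t) (xn n + x) ≤ C0 * -dx u e (tn n + t) (xn n + x) := by
    intro t x
    obtain ⟨T, hT, h⟩ := hF.pos
    filter_upwards [hev η0 T hF.hη0 t x] with n hn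
    exact h _ hn.1 _ _ hn.2.1 hn.2.2
  have h2 : ∀ t x, 0 ≤ -dx w e t x ∧ gr w t x ≤ C0 * -dx w e t x := by
    intro t x
    refine ⟨ge_of_tendsto (hdx e t x).neg ?_,
      le_of_tendsto_of_tendsto (hgr t x) ((hdx e t x).neg.const_mul C0) ?_⟩
    · filter_upwards [hpos t x] with n hn using hn.1.le
    · filter_upwards [hpos t x] with n hn using hn.2
  -- (3)
  have h3 : ∀ t x, cc * gr w t x ^ 2 ≤ dt w t x * -dx w e t x := by
    intro t x
    refine eps0 (c := (-dx w e t x) ^ 2) fun ε hε => ?_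
    have h3 : cc * gr w t x ^ 2 ≤ (dt w t x + ε * -dx w e t x) * -dx w e t x := by
      refine le_of_tendsto_of_tendsto (((hgr t x).pow 2).const_mul cc)
        (((hdt' t x).add ((hdx e t x).neg.const_mul ε)).mul (hdx e t x).neg) ?_
      exact hAtR _ hK ε hε t x
    linarith [h3, show (dt w t x + ε * -dx w e t x) * -dx w e t x =
      dt w t x * -dx w e t x + ε * (-dx w e t x) ^ 2 by ring]
  have hple : ∀ (v : ℝ → E N → ℝ) t x, -dx v e t x ≤ gr v t x := by
    intro v t x
    have h := (fderiv ℝ (v t) x).le_opNorm e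
    rw [he1, mul_one] at h
    exact (neg_le_abs _).trans h
  -- (4)
  have h4 : ∀ t x, cc * -dx w e t x ≤ dt w t x := by
    intro t x
    refine eps0 (c := -dx w e t x) fun ε hε => ?_
    refine le_of_tendsto_of_tendsto ((hdx e t x).neg.const_mul cc)
      ((hdt' t x).add ((hdx e t x).neg.const_mul ε)) ?_
    filter_upwards [hAtR _ hK ε hε t x, hpos t x] with n hn hp
    have hp0 := hp.1
    have hle := hple u (tn n + t) (xn n + x)
    have h5 : cc * (-dx u e (tn n + t) (xn n + x)) ^ 2 ≤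
        (dt u (tn n + t) (xn n + x) + ε * -dx u e (tn n + t) (xn n + x)) *
          -dx u e (tn n + t) (xn n + x) := by
      refine le_trans ?_ hn
      have : (-dx u e (tn n + t) (xn n + x)) ^ 2 ≤ gr u (tn n + t) (xn n + x) ^ 2 :=
        pow_le_pow_left₀ hp0.le hle 2
      exact mul_le_mul_of_nonneg_left this hcc.le
    refine le_of_mul_le_mul_right ?_ hp0
    linarith [show cc * -dx u e (tn n + t) (xn n + x) * -dx u e (tn n + t) (xn n + x) =
      cc * (-dx u e (tn n + t) (xn n + x)) ^ 2 by ring]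
  -- (6)
  have h6 : ∀ R, TiltB U u cc R → ∀ h, ‖h‖ = 1 → inner ℝ h e = 0 → ∀ t x,
      dx w h t x ≤ R * -dx w e t x := by
    intro R hR h hh hhe t x
    refine eps0 (c := -dx w e t x) fun ε hε => ?_
    have h7 : dx w h t x ≤ (R + ε) * -dx w e t x := by
      refine le_of_tendsto_of_tendsto (hdx h t x) ((hdx e t x).neg.const_mul (R + ε)) ?_
      filter_upwards [hAtR _ hR ε hε t x] with n hn
      exact hn h hh hhe
    linarith
  refine ⟨h1, h2, h3, h4, ?_, h6⟩
  -- (5)
  intro t x h0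
  have hcf : ∀ s, Continuous (fderiv ℝ (w s)) := fun s => (hC2 s).continuous_fderiv (by norm_num)
  have hlt : ∀ s < t, ∀ z, fderiv ℝ (w s) z = 0 := by
    intro s hs z
    have h7 : dx w e s z = 0 := by
      refine past0 hKREP hKER hPt (fun a b hab => (hLin a b hab).1 e) (fun s => ?_)
        (fun t x => neg_nonneg.1 (h2 t x).1) h0 hs z
      exact ((ContinuousLinearMap.apply ℝ ℝ e).continuous).comp (hcf s)
    have h8 := (h2 s z).2
    rw [h7, neg_zero, mul_zero] at h8
    exact norm_le_zero_iff.1 h8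
  intro s hs z
  rcases hs.lt_or_eq with h | rfl
  · exact hlt s h z
  · -- continuity in time
    ext h
    have hc : ContinuousOn (fun p : ℝ × E N => dx w h p.1 p.2) (Ioc (s - 1) s ×ˢ univ) :=
      ((hLin (s - 1) s (by linarith)).1 h).cont
    have h9 : Tendsto (fun r => dx w h r z) (𝓝[<] s) (𝓝 (dx w h s z)) := by
      have h10 := hc (s, z) ⟨⟨by simp, le_rfl⟩, mem_univ _⟩
      have h11 : Tendsto (fun r : ℝ => (r, z)) (𝓝[<] s) (𝓝[Ioc (s - 1) s ×ˢ univ] (s, z)) := by
        refine tendsto_nhdsWithin_iff.2 ⟨?_, ?_⟩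
        · exact (Continuous.prodMk_left z).continuousAt.tendsto.mono_left nhdsWithin_le_nhds
        · have : Ioo (s - 1) s ∈ 𝓝[<] s := Ioo_mem_nhdsLT (by linarith)
          filter_upwards [this] with r hr
          exact ⟨⟨hr.1, hr.2.le⟩, mem_univ _⟩
      exact h10.tendsto.comp h11
    have h12 : Tendsto (fun r => dx w h r z) (𝓝[<] s) (𝓝 0) := by
      refine tendsto_const_nhds.congr' ?_
      filter_upwards [self_mem_nhdsWithin] with r hr
      simp [dx, hlt r hr z]
    exact tendsto_nhds_unique h9 h12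

end Pool.Agent.H85.RF.LIMR
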