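import Pool.Agent.H85.RF.LIMR

/-!
# MP_609556_an, module PLAN: a limit of maximal tilt is planar or flat
-/

open MeasureTheory Set Filter Topology Metric
open Pool.Agent.H29.TF (hk P)
open Pool.Agent.H91.RD
open Pool.Agent.H91.RF

namespace Pool.Agent.H85.RF.PLAN

open Pool.Agent.H85.RF.LIMR

lemma alg {F : Type*} [NormedAddCommGroup F] [InnerProductSpace ℝ F] [CompleteSpace F]
    (L : F →L[ℝ] ℝ) (e h : F) (R : ℝ) (he : ‖e‖ = 1) (hh : ‖h‖ = 1) (hhe : inner ℝ h e = 0)
    (hp : 0 < -L e) (h1 : L h = R * -L e)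
    (h2 : ∀ h', ‖h'‖ = 1 → inner ℝ h' e = 0 → L h' ≤ R * -L e) :
    ‖L‖ = √(1 + R ^ 2) * -L e ∧
      L = -‖L‖ • (innerSL ℝ ((√(1 + R ^ 2))⁻¹ • (e - R • h)) : F →L[ℝ] ℝ) := by
  set p := -L e with hpdef
  have hLe : L e = -p := by rw [hpdef, neg_neg]
  set g : F := (InnerProductSpace.toDual ℝ F).symm L with hg
  have hgL : ∀ v, inner ℝ g v = L v := fun v => InnerProductSpace.toDual_symm_apply
  have hgn : ‖g‖ = ‖L‖ := (InnerProductSpace.toDual ℝ F).symm.norm_map L
  have hee : inner ℝ e e = (1 : ℝ) := by rw [real_inner_self_eq_norm_sq, he]; norm_num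
  have hhh : inner ℝ h h = (1 : ℝ) := by rw [real_inner_self_eq_norm_sq, hh]; norm_num
  have heh : inner ℝ e h = (0 : ℝ) := by rw [real_inner_comm]; exact hhe
  set g' : F := g + p • e with hg'
  have hg'e : inner ℝ g' e = (0 : ℝ) := by
    rw [hg', inner_add_left, inner_smul_left, hgL, hee, hLe]
    simp
  have hg'h : inner ℝ g' h = R * p := by
    rw [hg', inner_add_left, inner_smul_left, hgL, heh, h1]
    simp
  have hself : inner ℝ g g' = ‖g'‖ ^ 2 := by
    have : inner ℝ g' g' = inner ℝ g g' + p * inner ℝ e g' := by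
      conv_lhs => rw [hg', inner_add_left, inner_smul_left]
      simp [hg']
    rw [real_inner_comm g' e, hg'e, mul_zero, add_zero, real_inner_self_eq_norm_sq] at this
    exact this.symm
  have hRp : 0 ≤ R * p ∧ ‖g'‖ ≤ R * p ∨ g' = 0 := by
    by_cases hz : g' = 0
    · exact Or.inr hz
    · left
      have hn : 0 < ‖g'‖ := norm_pos_iff.2 hz
      have h3 := h2 (‖g'‖⁻¹ • g') (by rw [norm_smul, norm_inv, norm_norm, inv_mul_cancel₀ hn.ne'])
        (by rw [inner_smul_left, hg'e, mul_zero])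
      rw [← hgL, inner_smul_right, hself] at h3
      have h4 : ‖g'‖⁻¹ * ‖g'‖ ^ 2 = ‖g'‖ := by field_simp
      rw [h4] at h3
      exact ⟨hn.le.trans h3, h3⟩
  have hgh : g' = (R * p) • h := by
    rcases hRp with ⟨h3, h4⟩ | h3
    · have h5 : ‖g' - (R * p) • h‖ ^ 2 ≤ 0 := by
        rw [norm_sub_sq_real, inner_smul_right, hg'h, norm_smul, hh, Real.norm_eq_abs, mul_one,
          sq_abs]
        have : ‖g'‖ ^ 2 ≤ (R * p) ^ 2 := pow_le_pow_left₀ (norm_nonneg _) h4 2
        nlinarith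
      have h6 : ‖g' - (R * p) • h‖ = 0 := by
        have := norm_nonneg (g' - (R * p) • h)
        nlinarith
      exact sub_eq_zero.1 (norm_eq_zero.1 h6)
    · have h4 : R * p = 0 := by rw [← hg'h, h3, inner_zero_left]
      rw [h3, h4, zero_smul]
  have hgeq : g = -p • (e - R • h) := by
    have : g = g' - p • e := by rw [hg']; abel
    rw [this, hgh, smul_sub, smul_smul]
    module
  have hnorm : ‖e - R • h‖ = √(1 + R ^ 2) := by
    have h3 : ‖e - R • h‖ ^ 2 = 1 + R ^ 2 := by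
      rw [norm_sub_sq_real, inner_smul_right, heh, he, norm_smul, hh, Real.norm_eq_abs, mul_one,
        sq_abs]
      ring
    rw [← h3, Real.sqrt_sq (norm_nonneg _)]
  have hs : 0 < √(1 + R ^ 2) := Real.sqrt_pos.2 (by positivity)
  have hL : ‖L‖ = √(1 + R ^ 2) * p := by
    rw [← hgn, hgeq, norm_smul, hnorm, norm_neg, Real.norm_eq_abs, abs_of_pos hp, mul_comm]
  refine ⟨hL, ?_⟩
  ext v
  rw [← hgL, hgeq, hL]
  simp only [inner_smul_left, ContinuousLinearMap.smul_apply, innerSL_apply_apply, smul_eq_mul,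
    neg_smul, ContinuousLinearMap.neg_apply, inner_neg_left, map_inv₀, conj_trivial]
  field_simp

theorem X (hLIMR : T_LIMR) (hCONV : T_CONV) (hKREP : T_KREP) (hKER : T_KER) : T_PLAN := by
  intro N f K cc lo hi C0 C9 η0 U u hS hM hF hK R hR hT tn xn e h w hA hh hhe hlim hE hL
  have hcc := hM.cpos
  obtain ⟨-, L2, L3, -, L5, L6⟩ :=
    hLIMR N f K cc lo hi C0 C9 η0 U u hS hM hF hK tn xn e w hA hE hL
  obtain ⟨hC2, -, hcx, -, hPt, hLin⟩ :=
    hCONV N f K U u tn xn w hS.reac hS.lip hS.sol hA.1 hE hL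
  by_cases hcase : ∃ x, dx w e 0 x = 0
  · obtain ⟨x, hx⟩ := hcase
    exact Or.inl fun t ht z => L5 0 x hx t ht z
  right
  push Not at hcase
  have he1 : ‖e‖ = 1 := by
    obtain ⟨n, hn⟩ := (hA.2 1 one_pos).exists
    exact hn.1.1
  -- positivity of `p`
  have hpos : ∀ t ≤ 0, ∀ x, 0 < -dx w e t x := by
    intro t ht x
    refine lt_of_le_of_ne (L2 t x).1 fun h0 => ?_
    have h1 : dx w e t x = 0 := by linarith
    rcases ht.lt_or_eq with hlt | rfl
    · have h2 : ∀ z, dx w e t z = 0 := fun z => by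
        simp [dx, L5 t x h1 t le_rfl z]
      have h3 := hKREP N K t 0 (potE f w) (dx w e) hPt ((hLin t 0 hlt).1 e) t 0 le_rfl hlt le_rfl x
      refine hcase x ?_
      rw [h3]
      simp [h2]
    · exact hcase x h1
  -- the solution `z`
  set v : E N := h + R • e with hv
  have hdv : ∀ t x, dx w v t x = dx w h t x - R * -dx w e t x := by
    intro t x
    simp only [dx, hv, map_add, map_smul, smul_eq_mul]
    ring
  have hneg : ∀ t x, dx w v t x ≤ 0 := fun t x => by
    rw [hdv]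
    linarith [L6 R hT h hh hhe t x]
  have hcf : ∀ s, Continuous (fderiv ℝ (w s)) := fun s => (hC2 s).continuous_fderiv (by norm_num)
  have h00 : dx w v 0 0 = 0 := by
    have hg : Tendsto (fun n => fderiv ℝ (u (tn n)) (xn n)) atTop (𝓝 (fderiv ℝ (w 0) 0)) := by
      have := ptw _ _ hcx 0 (0 : E N)
      simpa using this
    have hdx : ∀ k, Tendsto (fun n => dx u k (tn n) (xn n)) atTop (𝓝 (dx w k 0 0)) := fun k =>
      ((ContinuousLinearMap.apply ℝ ℝ k).continuous.tendsto _).comp hg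
    have h1 := hlim.mul (hdx e).neg
    have h2 : Tendsto (fun n => dx u h (tn n) (xn n)) atTop (𝓝 (R * -dx w e 0 0)) := by
      refine h1.congr' ?_
      have h3 : ∀ᶠ n in atTop, 0 < -dx u e (tn n) (xn n) :=
        (hdx e).neg.eventually (lt_mem_nhds (hpos 0 le_rfl 0))
      filter_upwards [h3] with n hn
      exact div_mul_cancel₀ _ hn.ne'
    rw [hdv, tendsto_nhds_unique (hdx h) h2, sub_self]
  have hlt : ∀ s < 0, ∀ z, dx w v s z = 0 := by
    intro s hs z
    refine past0 hKREP hKER hPt (fun a b hab => (hLin a b hab).1 v) (fun s => ?_)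
      hneg h00 hs z
    exact ((ContinuousLinearMap.apply ℝ ℝ v).continuous).comp (hcf s)
  have hle : ∀ s ≤ 0, ∀ z, dx w v s z = 0 := by
    intro s hs z
    rcases hs.lt_or_eq with h | rfl
    · exact hlt s h z
    have hc : ContinuousOn (fun p : ℝ × E N => dx w v p.1 p.2) (Ioc (-1) 0 ×ˢ univ) :=
      ((hLin (-1) 0 (by linarith)).1 v).cont
    have h9 : Tendsto (fun r => dx w v r z) (𝓝[<] 0) (𝓝 (dx w v 0 z)) := by
      have h10 := hc (0, z) ⟨⟨by simp, le_rfl⟩, mem_univ _⟩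
      have h11 : Tendsto (fun r : ℝ => (r, z)) (𝓝[<] 0) (𝓝[Ioc (-1) 0 ×ˢ univ] (0, z)) := by
        refine tendsto_nhdsWithin_iff.2 ⟨?_, ?_⟩
        · exact (Continuous.prodMk_left z).continuousAt.tendsto.mono_left nhdsWithin_le_nhds
        · have : Ioo (-1 : ℝ) 0 ∈ 𝓝[<] (0 : ℝ) := Ioo_mem_nhdsLT (by linarith)
          filter_upwards [this] with r hr
          exact ⟨⟨hr.1, hr.2.le⟩, mem_univ _⟩
      exact h10.tendsto.comp h11
    have h12 : Tendsto (fun r => dx w v r z) (𝓝[<] 0) (𝓝 0) := by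
      refine tendsto_const_nhds.congr' ?_
      filter_upwards [self_mem_nhdsWithin] with r hr
      exact (hlt r hr z).symm
    exact tendsto_nhds_unique h9 h12
  refine ⟨hpos, (√(1 + R ^ 2))⁻¹ • (e - R • h), ?_, fun t ht x => ?_⟩
  · have hs : 0 < √(1 + R ^ 2) := Real.sqrt_pos.2 (by positivity)
    have heh : inner ℝ e h = (0 : ℝ) := by rw [real_inner_comm]; exact hhe
    have hnorm : ‖e - R • h‖ = √(1 + R ^ 2) := by
      have h3 : ‖e - R • h‖ ^ 2 = 1 + R ^ 2 := by
        rw [norm_sub_sq_real, inner_smul_right, heh, he1, norm_smul, hh, Real.norm_eq_abs,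
          mul_one, sq_abs]
        ring
      rw [← h3, Real.sqrt_sq (norm_nonneg _)]
    rw [norm_smul, hnorm, Real.norm_eq_abs, abs_of_pos (inv_pos.2 hs), inv_mul_cancel₀ hs.ne']
  · have h1 : dx w h t x = R * -dx w e t x := by
      have := hle t ht x
      rw [hdv] at this
      linarith
    obtain ⟨ha, hb⟩ := alg (fderiv ℝ (w t) x) e h R he1 hh hhe (hpos t ht x) h1
      (fun h' hh' hhe' => L6 R hT h' hh' hhe' t x)
    have hgr : gr w t x = √(1 + R ^ 2) * -dx w e t x := ha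
    refine ⟨hb, hgr, ?_⟩
    have h3 := L3 t x
    refine le_of_mul_le_mul_right ?_ (hpos t ht x)
    have h4 : cc * √(1 + R ^ 2) * gr w t x * -dx w e t x = cc * gr w t x ^ 2 := by
      rw [hgr]; ring
    rw [h4]
    exact h3

end Pool.Agent.H85.RF.PLAN
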