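import Pool.Agent.H91.RF.TargetsK2

/-! Module STH: Harnack inequality for positive steady states. -/

open MeasureTheory Set Filter Topology Metric
open Pool.Agent.H29.TF (hk P)
open Pool.Agent.H91.RD

namespace Pool.Agent.H85.RF.STH

open Pool.Agent.H91.RF

/-- comparison of two Gaussian kernels with a shift -/
lemma hk_shift {N : ℕ} {Kw : ℝ} (hKw : 0 ≤ Kw) (u v : E N) (hv : ‖v‖ ≤ Kw) :
    hk (1 / 4) (u - v) ≤ 2 ^ N * Real.exp (Kw ^ 2 / 2) * hk 1 u := by
  unfold hk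
  rw [show (Module.finrank ℝ (E N) : ℝ) = N by simp]
  have e1 : (4 * Real.pi * (1 / 4)) ^ (-(N : ℝ) / 2) = 2 ^ N * (4 * Real.pi * 1) ^ (-(N : ℝ) / 2) := by
    have hpi := Real.pi_pos
    rw [show (4 * Real.pi * (1 / 4)) = Real.pi by ring, show (4 * Real.pi * 1) = 4 * Real.pi by ring,
      Real.mul_rpow (by norm_num) hpi.le, ← mul_assoc]
    have h2 : (2 : ℝ) ^ N * (4 : ℝ) ^ (-(N : ℝ) / 2) = 1 := by
      rw [show (4 : ℝ) = 2 ^ (2 : ℝ) by norm_num, ← Real.rpow_mul (by norm_num), ← Real.rpow_natCast,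
        ← Real.rpow_add (by norm_num)]
      rw [show (N : ℝ) + 2 * (-(N : ℝ) / 2) = 0 by ring, Real.rpow_zero]
    rw [h2, one_mul]
  rw [e1]
  have h3 : Real.exp (-‖u - v‖ ^ 2 / (4 * (1 / 4))) ≤ Real.exp (Kw ^ 2 / 2) * Real.exp (-‖u‖ ^ 2 / (4 * 1)) := by
    rw [← Real.exp_add, Real.exp_le_exp]
    have h4 : ‖u‖ ≤ ‖u - v‖ + ‖v‖ := by
      have := norm_add_le (u - v) v
      rwa [sub_add_cancel] at this
    have h5 : ‖u‖ ^ 2 ≤ (‖u - v‖ + ‖v‖) ^ 2 := pow_le_pow_left₀ (norm_nonneg _) h4 2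
    have h6 : ‖v‖ ^ 2 ≤ Kw ^ 2 := pow_le_pow_left₀ (norm_nonneg _) hv 2
    nlinarith [sq_nonneg (‖u - v‖ - ‖v‖), sq_nonneg ‖u - v‖]
  have hpi := Real.pi_pos
  calc 2 ^ N * (4 * Real.pi * 1) ^ (-(N : ℝ) / 2) * Real.exp (-‖u - v‖ ^ 2 / (4 * (1 / 4)))
      ≤ 2 ^ N * (4 * Real.pi * 1) ^ (-(N : ℝ) / 2) *
        (Real.exp (Kw ^ 2 / 2) * Real.exp (-‖u‖ ^ 2 / (4 * 1))) := by gcongr
    _ = _ := by ring

/-- from local to global -/
lemma chain {N : ℕ} {p : E N → ℝ} {A : ℝ}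
    (hloc : ∀ x x', ‖x - x'‖ ≤ 1 / 4 → p x' ≤ Real.exp (A * ‖x - x'‖) * p x) (x y : E N) :
    p x ≤ Real.exp (A * ‖x - y‖) * p y := by
  obtain ⟨n, hn⟩ := exists_nat_gt (4 * ‖x - y‖)
  have hn0 : (0 : ℝ) < n := lt_of_le_of_lt (by positivity) hn
  have hstep : ‖x - y‖ / n ≤ 1 / 4 := by
    rw [div_le_iff₀ hn0]
    linarith
  have key : ∀ k : ℕ, p (y + ((k : ℝ) / n) • (x - y)) ≤ Real.exp (A * (k * (‖x - y‖ / n))) * p y := by
    intro k
    induction k with
    | zero => simp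
    | succ k ih =>
      have hd : (y + ((k : ℝ) / n) • (x - y)) - (y + (((k + 1 : ℕ) : ℝ) / n) • (x - y)) = -((1 / (n : ℝ)) • (x - y)) := by
        rw [add_sub_add_left_eq_sub, ← sub_smul, ← neg_smul]
        congr 1
        push_cast
        field_simp
        ring
      have hnorm : ‖(y + ((k : ℝ) / n) • (x - y)) - (y + (((k + 1 : ℕ) : ℝ) / n) • (x - y))‖ = ‖x - y‖ / n := by
        rw [hd, norm_neg, norm_smul, Real.norm_of_nonneg (by positivity)]
        ring
      have h1 := hloc (y + ((k : ℝ) / n) • (x - y)) (y + (((k + 1 : ℕ) : ℝ) / n) • (x - y)) (by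
        rw [hnorm]; exact hstep)
      rw [hnorm] at h1
      refine h1.trans ?_
      calc Real.exp (A * (‖x - y‖ / n)) * p (y + ((k : ℝ) / n) • (x - y))
          ≤ Real.exp (A * (‖x - y‖ / n)) * (Real.exp (A * (k * (‖x - y‖ / n))) * p y) := by gcongr
        _ = Real.exp (A * (((k + 1 : ℕ) : ℝ) * (‖x - y‖ / n))) * p y := by
            rw [← mul_assoc, ← Real.exp_add]
            congr 2
            push_cast
            ring
  have h := key n
  rw [div_self hn0.ne', one_smul, add_sub_cancel, mul_div_cancel₀ _ hn0.ne'] at h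
  exact h

/-- **STH.** -/
theorem pf_STH (hKLX : T_KLX) (hKER : T_KER) : T_STH := by
  intro N K Kw hK hKw
  obtain ⟨C, hC1, hC⟩ := hKLX N K hK
  set B : ℝ := 2 ^ N * Real.exp (Kw ^ 2 / 2) * Real.exp K with hB
  have hB1 : 1 ≤ B := by
    have h1 : (1 : ℝ) ≤ 2 ^ N := one_le_pow₀ (by norm_num)
    have h2 : 1 ≤ Real.exp (Kw ^ 2 / 2) := Real.one_le_exp (by positivity)
    have h3 : 1 ≤ Real.exp K := Real.one_le_exp hK.le
    have h4 : 1 ≤ (2 : ℝ) ^ N * Real.exp (Kw ^ 2 / 2) := by nlinarith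
    nlinarith
  set A : ℝ := 4 * C * B with hA
  have hA1 : 1 ≤ A := by nlinarith
  refine ⟨A, hA1, ?_⟩
  intro V w p hV hw hst hpc hp0 hpz heig
  obtain ⟨hm, hbd, -⟩ := hKER N K V hV
  -- the integral with the kernel at time one
  have hlow : ∀ x y, hk 1 (x - y) ≤ Real.exp K * gk V 0 x (-1) y := by
    intro x y
    have h := (hbd (-1) 0 (by norm_num) x y).1
    rw [show (0 : ℝ) - -1 = 1 by norm_num, mul_one] at h
    calc hk 1 (x - y) = Real.exp K * (Real.exp (-K) * hk 1 (x - y)) := by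
          rw [← mul_assoc, ← Real.exp_add]; simp
      _ ≤ _ := by gcongr
  have hint1 : ∀ x, Integrable (fun y => gk V 0 x (-1) y * p (y + w)) ∧ p x = ∫ y, gk V 0 x (-1) y * p (y + w) := by
    intro x
    have := heig 1 one_pos x
    rw [one_smul] at this
    exact this
  have hint2 : ∀ x, Integrable (fun y => hk 1 (x - y) * p (y + w)) := by
    intro x
    refine ((hint1 x).1.const_mul (Real.exp K)).mono' ?_ (Eventually.of_forall fun y => ?_)
    · refine Continuous.aestronglyMeasurable ?_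
      have h1 : Continuous fun y : E N => hk 1 (x - y) :=
        (Pool.Agent.H29.TF.continuous_hk 1).comp (continuous_const.sub continuous_id)
      exact h1.mul (hpc.comp (continuous_id.add continuous_const))
    · have h1 := hlow x y
      have h2 := hp0 (y + w)
      have h3 := (Pool.Agent.H29.TF.hk_pos one_pos (x - y)).le
      rw [Real.norm_of_nonneg (mul_nonneg h3 h2), ← mul_assoc]
      gcongr
  have hle2 : ∀ x, ∫ y, hk 1 (x - y) * p (y + w) ≤ Real.exp K * p x := by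
    intro x
    rw [(hint1 x).2, ← integral_const_mul]
    refine integral_mono (hint2 x) ((hint1 x).1.const_mul _) fun y => ?_
    have h1 := hlow x y
    have h2 := hp0 (y + w)
    show hk 1 (x - y) * p (y + w) ≤ Real.exp K * (gk V 0 x (-1) y * p (y + w))
    rw [← mul_assoc]
    gcongr
  -- the kernel at time `1/4`
  set v : E N := (15 / 16 : ℝ) • w with hv
  have hvn : ‖v‖ ≤ Kw := by
    rw [hv, norm_smul, Real.norm_of_nonneg (by norm_num)]
    nlinarith [norm_nonneg w]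
  have hker : ∀ x z, hk (1 / 4) (x - (z + v)) * p (z + v + (1 / 16 : ℝ) • w) ≤
      2 ^ N * Real.exp (Kw ^ 2 / 2) * (hk 1 (x - z) * p (z + w)) := by
    intro x z
    have h1 := hk_shift hKw.le (x - z) v hvn
    have h2 : z + v + (1 / 16 : ℝ) • w = z + w := by
      rw [hv, add_assoc, ← add_smul]
      norm_num
    rw [h2, show x - (z + v) = x - z - v by abel]
    have h3 := hp0 (z + w)
    calc hk (1 / 4) (x - z - v) * p (z + w) ≤ 2 ^ N * Real.exp (Kw ^ 2 / 2) * hk 1 (x - z) * p (z + w) := by gcongr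
      _ = _ := by ring
  have hint3' : ∀ x, Integrable (fun z => hk (1 / 4) (x - (z + v)) * p (z + v + (1 / 16 : ℝ) • w)) := by
    intro x
    refine ((hint2 x).const_mul (2 ^ N * Real.exp (Kw ^ 2 / 2))).mono' ?_ (Eventually.of_forall fun z => ?_)
    · refine Continuous.aestronglyMeasurable ?_
      have h1 : Continuous fun z : E N => hk (1 / 4) (x - (z + v)) :=
        (Pool.Agent.H29.TF.continuous_hk _).comp (continuous_const.sub (continuous_id.add continuous_const))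
      exact h1.mul (hpc.comp ((continuous_id.add continuous_const).add continuous_const))
    · rw [Real.norm_of_nonneg (mul_nonneg (Pool.Agent.H29.TF.hk_pos (by norm_num) _).le (hp0 _))]
      exact hker x z
  have hint3 : ∀ x, Integrable (fun y => hk (1 / 4) (x - y) * p (y + (1 / 16 : ℝ) • w)) := by
    intro x
    have := (hint3' x).comp_sub_right v
    simpa only [sub_add_cancel] using this
  have hle3 : ∀ x, ∫ y, hk (1 / 4) (x - y) * p (y + (1 / 16 : ℝ) • w) ≤ B * p x := by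
    intro x
    have h1 : ∫ y, hk (1 / 4) (x - y) * p (y + (1 / 16 : ℝ) • w) =
        ∫ z, hk (1 / 4) (x - (z + v)) * p (z + v + (1 / 16 : ℝ) • w) :=
      (integral_add_right_eq_self (fun y => hk (1 / 4) (x - y) * p (y + (1 / 16 : ℝ) • w)) v).symm
    rw [h1]
    calc ∫ z, hk (1 / 4) (x - (z + v)) * p (z + v + (1 / 16 : ℝ) • w)
        ≤ ∫ z, 2 ^ N * Real.exp (Kw ^ 2 / 2) * (hk 1 (x - z) * p (z + w)) :=
          integral_mono (hint3' x) ((hint2 x).const_mul _) fun z => hker x z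
      _ = 2 ^ N * Real.exp (Kw ^ 2 / 2) * ∫ z, hk 1 (x - z) * p (z + w) := integral_const_mul _ _
      _ ≤ 2 ^ N * Real.exp (Kw ^ 2 / 2) * (Real.exp K * p x) := by
          have := hle2 x
          gcongr
      _ = B * p x := by rw [hB]; ring
  -- local Lipschitz estimate
  have hlip : ∀ x x', ‖x - x'‖ ≤ 1 / 4 → |p x - p x'| ≤ A * ‖x - x'‖ * p x := by
    intro x x' hxx
    have hs : √((0 : ℝ) - -(1 / 16)) = 1 / 4 := by
      rw [show (0 : ℝ) - -(1 / 16) = (1 / 4) ^ 2 by norm_num, Real.sqrt_sq (by norm_num)]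
    obtain ⟨i1, e1⟩ := heig (1 / 16) (by norm_num) x
    obtain ⟨i2, e2⟩ := heig (1 / 16) (by norm_num) x'
    have hdiff : p x - p x' = ∫ y, (gk V 0 x (-(1 / 16)) y * p (y + (1 / 16 : ℝ) • w) -
        gk V 0 x' (-(1 / 16)) y * p (y + (1 / 16 : ℝ) • w)) := by
      rw [integral_sub i1 i2, ← e1, ← e2]
    rw [hdiff]
    have hb : ∀ y, ‖gk V 0 x (-(1 / 16)) y * p (y + (1 / 16 : ℝ) • w) -
        gk V 0 x' (-(1 / 16)) y * p (y + (1 / 16 : ℝ) • w)‖ ≤
        4 * C * ‖x - x'‖ * (hk (1 / 4) (x - y) * p (y + (1 / 16 : ℝ) • w)) := by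
      intro y
      have h1 := hC V hV (-(1 / 16)) 0 (by norm_num) (by norm_num) x x' y (by rw [hs]; exact hxx)
      rw [hs, show (4 : ℝ) * (0 - -(1 / 16)) = 1 / 4 by norm_num] at h1
      rw [← sub_mul, norm_mul, Real.norm_eq_abs, Real.norm_of_nonneg (hp0 _)]
      have h2 := hp0 (y + (1 / 16 : ℝ) • w)
      calc |gk V 0 x (-(1 / 16)) y - gk V 0 x' (-(1 / 16)) y| * p (y + (1 / 16 : ℝ) • w)
          ≤ C * (‖x - x'‖ / (1 / 4)) * hk (1 / 4) (x - y) * p (y + (1 / 16 : ℝ) • w) := by gcongr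
        _ = _ := by ring
    have h3 := norm_integral_le_of_norm_le ((hint3 x).const_mul (4 * C * ‖x - x'‖)) (Eventually.of_forall hb)
    rw [Real.norm_eq_abs, integral_const_mul] at h3
    refine h3.trans ?_
    have h4 := hle3 x
    have h5 : 0 ≤ 4 * C * ‖x - x'‖ := by positivity
    calc 4 * C * ‖x - x'‖ * ∫ y, hk (1 / 4) (x - y) * p (y + (1 / 16 : ℝ) • w)
        ≤ 4 * C * ‖x - x'‖ * (B * p x) := by gcongr
      _ = A * ‖x - x'‖ * p x := by rw [hA]; ring
  have hloc : ∀ x x', ‖x - x'‖ ≤ 1 / 4 → p x' ≤ Real.exp (A * ‖x - x'‖) * p x := by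
    intro x x' h
    have h1 := hlip x x' h
    have h2 := neg_abs_le (p x - p x')
    have h3 : A * ‖x - x'‖ + 1 ≤ Real.exp (A * ‖x - x'‖) := Real.add_one_le_exp _
    have h4 : (A * ‖x - x'‖ + 1) * p x ≤ Real.exp (A * ‖x - x'‖) * p x := mul_le_mul_of_nonneg_right h3 (hp0 x)
    linarith
  -- positivity
  have hpos : ∀ x, 0 < p x := by
    intro x
    have h1 := chain (p := p) hloc 0 x
    by_contra h
    have h2 : p x = 0 := le_antisymm (not_lt.1 h) (hp0 x)
    rw [h2, mul_zero] at h1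
    linarith
  exact ⟨hV, hA1, hw, hst, hpos, chain hloc, fun s hs x => (heig s hs x).2⟩

end Pool.Agent.H85.RF.STH
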