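import Pool.Agent.H91.RF.TargetsA

/-! Module TE3: `f > 0` just below a platform. -/

open MeasureTheory Set Filter Topology Metric
open Pool.Agent.H91.RD

namespace Pool.Agent.H85.RF.TE3

open Pool.Agent.H91.RF

lemma lip_cont {f : ℝ → ℝ} {K : ℝ} (hL : Lip f K) : Continuous f := by
  have : LipschitzWith (Real.toNNReal K) f := by
    refine LipschitzWith.of_dist_le_mul fun x y => ?_
    rw [Real.dist_eq, Real.dist_eq, Real.coe_toNNReal _ hL.K0.le]
    exact hL.lip x y
  exact this.continuous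

lemma hasDerivAt_fp {f : ℝ → ℝ} (hf : Reaction f) {x : ℝ} (h0 : 0 < x) (h1 : x < 1) :
    HasDerivAt f (fp f x) x :=
  ((hf.smooth.differentiableOn one_ne_zero x ⟨h0.le, h1.le⟩).hasDerivWithinAt).hasDerivAt (Icc_mem_nhds h0 h1)

/-- points to the right with larger values -/
lemma exists_right {G : ℝ → ℝ} {G' x : ℝ} (h : HasDerivAt G G' x) (hG' : 0 < G') :
    ∃ ε > 0, ∀ z, x < z → z < x + ε → G x < G z := by
  have h1 := (hasDerivAt_iff_tendsto_slope.1 h).eventually (lt_mem_nhds hG')
  rw [eventually_nhdsWithin_iff, Metric.eventually_nhds_iff] at h1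
  obtain ⟨ε, hε, h2⟩ := h1
  refine ⟨ε, hε, fun z hz1 hz2 => ?_⟩
  have h3 := h2 (show dist z x < ε by rw [Real.dist_eq, abs_of_pos (by linarith)]; linarith)
    (by simp only [mem_compl_iff, mem_singleton_iff]; exact hz1.ne')
  rw [slope_def_field, lt_div_iff₀ (by linarith)] at h3
  linarith

/-- **TE3.** -/
theorem pf_TE3 (hYEX : T_YEX) (hYCMP : T_YCMP) : T_TE3 := by
  intro f K b c β y hf hL hb0 hb1 hfb hE hβ0 hβb hpos hyβ hfβ hint
  by_contra hcon
  push Not at hcon
  have hc := hE.cpos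
  have hfc : Continuous f := lip_cont hL
  have hβ1 : β < 1 := by linarith
  -- zeros accumulate at `β` from below
  have hz : ∀ δ > 0, ∃ θ ∈ Ioo (β - δ) β, 0 < θ ∧ f θ = 0 := by
    intro δ hδ
    obtain ⟨s, hs, hfs⟩ := hcon (min δ β) (lt_min hδ hβ0) (min_le_right _ _)
    have hs1 : β - δ < s := by
      have := min_le_left δ β
      linarith [hs.1]
    have hs0 : 0 < s := by
      have := min_le_right δ β
      linarith [hs.1]
    have hp : ∃ p ∈ Ioo s β, 0 < f p := by
      by_contra hno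
      push Not at hno
      have hneg : ∀ x ∈ Icc s β, 0 ≤ -f x := by
        intro x hx
        rcases eq_or_lt_of_le hx.1 with h1 | h1
        · rw [← h1]; linarith
        · rcases eq_or_lt_of_le hx.2 with h2 | h2
          · rw [h2, hfβ]; simp
          · linarith [hno x ⟨h1, h2⟩]
      have h1 := intervalIntegral.integral_nonneg (μ := volume) hs.2.le hneg
      rw [intervalIntegral.integral_neg] at h1
      linarith [hint s ⟨hs0.le, hs.2⟩]
    obtain ⟨p, hp, hfp⟩ := hp
    obtain ⟨θ, hθ, hfθ⟩ := intermediate_value_Icc hp.1.le hfc.continuousOn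
      (show (0 : ℝ) ∈ Icc (f s) (f p) from ⟨hfs, hfp.le⟩)
    exact ⟨θ, ⟨by linarith [hθ.1], by linarith [hθ.2, hp.2]⟩, by linarith [hθ.1], hfθ⟩
  have hdβ := hasDerivAt_fp hf hβ0 hβ1
  have hfp0 : fp f β ≤ 0 := by
    by_contra hpos'
    push Not at hpos'
    have h1 := (hasDerivAt_iff_tendsto_slope.1 hdβ).eventually (lt_mem_nhds hpos')
    rw [eventually_nhdsWithin_iff, Metric.eventually_nhds_iff] at h1
    obtain ⟨ε, hε, h2⟩ := h1
    obtain ⟨θ, hθ, _, hfθ⟩ := hz ε hε
    have h3 := h2 (show dist θ β < ε by rw [Real.dist_eq, abs_lt]; constructor <;> linarith [hθ.1, hθ.2])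
      (by simp only [mem_compl_iff, mem_singleton_iff]; exact hθ.2.ne)
    rw [slope_def_field, hfθ, hfβ] at h3
    simp at h3
  -- the derivative is small near `β`
  have hcont : ContinuousOn (fp f) (Icc 0 1) :=
    hf.smooth.continuousOn_derivWithin (uniqueDiffOn_Icc one_pos) le_rfl
  obtain ⟨δ₁, hδ₁, hδ₁'⟩ : ∃ δ₁ > 0, ∀ x ∈ Icc (0 : ℝ) 1, |x - β| < δ₁ → fp f x < c ^ 2 / 16 := by
    have h1 := (hcont β ⟨hβ0.le, hβ1.le⟩).eventually
      (gt_mem_nhds (show fp f β < c ^ 2 / 16 by have : 0 < c ^ 2 := by positivity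
                                                linarith))
    rw [eventually_nhdsWithin_iff, Metric.eventually_nhds_iff] at h1
    obtain ⟨ε, hε, h2⟩ := h1
    exact ⟨ε, hε, fun x hx hxβ => h2 (by rw [Real.dist_eq]; exact hxβ) hx⟩
  obtain ⟨θ, hθ, hθ0, hfθ⟩ := hz δ₁ hδ₁
  have hbound : ∀ l ∈ Icc θ β, f l ≤ c ^ 2 / 16 * (l - θ) := by
    intro l hl
    have hder : ∀ x ∈ interior (Icc θ β), HasDerivAt f (fp f x) x := by
      intro x hx
      rw [interior_Icc] at hx
      exact hasDerivAt_fp hf (by linarith [hx.1]) (by linarith [hx.2])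
    have h1 := Convex.image_sub_le_mul_sub_of_deriv_le (convex_Icc θ β) hfc.continuousOn
      (fun x hx => (hder x hx).differentiableAt.differentiableWithinAt) (C := c ^ 2 / 16)
      (fun x hx => by
        rw [(hder x hx).deriv]
        rw [interior_Icc] at hx
        exact (hδ₁' x ⟨by linarith [hx.1], by linarith [hx.2]⟩ (by
          rw [abs_lt]; constructor <;> linarith [hx.1, hx.2, hθ.1])).le)
      θ (left_mem_Icc.2 hθ.2.le) l hl hl.1
    rw [hfθ] at h1
    linarith
  -- the speed slightly smaller than `c`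
  set D : ℝ := c ^ 2 / 8 * (β - θ) ^ 2 with hD
  have hβθ : 0 < β - θ := by linarith [hθ.2]
  have hDpos : 0 < D := by positivity
  set q : ℝ := √(2 * K) with hq
  have hq0 : 0 ≤ q := Real.sqrt_nonneg _
  set m : ℝ := min (c / 8) (D / (2 * (q + 1))) with hm
  have hm0 : 0 < m := lt_min (by linarith) (by positivity)
  have hmc : m ≤ c / 8 := min_le_left _ _
  have hmD : m * q < D := by
    have h1 : m ≤ D / (2 * (q + 1)) := min_le_right _ _
    have h2 : m * (2 * (q + 1)) ≤ D := by rwa [le_div_iff₀ (by positivity)] at h1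
    nlinarith
  obtain ⟨y', hy'⟩ := hYEX f K b (c - m) hL hb0 hb1 hfb (by linarith)
  have hy'pos : ∀ τ ∈ Ioc 0 b, 0 < y' τ := hE.below (c - m) (by linarith) (by linarith) y' hy'
  have hcmp := (hYCMP f K b hL hb0 hb1 hfb (c - m) c y' y (by linarith) (by linarith) hy' hE.isy (b - β)
    ⟨by linarith, by linarith⟩).2
  rw [hyβ, sub_zero, show c - (c - m) = m by ring, ← hq] at hcmp
  set G : ℝ → ℝ := fun l => y' (b - l) - c ^ 2 / 8 * (l - θ) ^ 2 with hG
  have hGd : ∀ l ∈ Ioo 0 b, HasDerivAt G (-(f l - (c - m) * √(2 * y' (b - l))) - c ^ 2 / 4 * (l - θ)) l := by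
    intro l hl
    have h1 := hy'.2.2 (b - l) ⟨by linarith [hl.2], by linarith [hl.1]⟩
    rw [sub_sub_cancel, max_eq_left (hy'pos (b - l) ⟨by linarith [hl.2], by linarith [hl.1]⟩).le] at h1
    have h2 := HasDerivAt.comp_const_sub b l h1
    have h3 : HasDerivAt (fun l : ℝ => c ^ 2 / 8 * (l - θ) ^ 2) (c ^ 2 / 4 * (l - θ)) l := by
      have := (((hasDerivAt_id l).sub_const θ).pow 2).const_mul (c ^ 2 / 8)
      refine this.congr_deriv ?_
      simp
      ring
    exact h2.sub h3
  have hGc : ContinuousOn G (Icc θ β) := fun l hl =>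
    (hGd l ⟨by linarith [hl.1], by linarith [hl.2]⟩).continuousAt.continuousWithinAt
  have hGθ : 0 ≤ G θ := by
    simp only [hG, sub_self]
    have := hy'pos (b - θ) ⟨by linarith [hθ.2], by linarith⟩
    norm_num
    exact this.le
  have hGβ : G β < 0 := by
    simp only [hG]
    rw [← hD]
    linarith
  have hclosed : IsClosed (Icc θ β ∩ G ⁻¹' Ici 0) := hGc.preimage_isClosed_of_isClosed isClosed_Icc isClosed_Ici
  have hcomp : IsCompact (Icc θ β ∩ G ⁻¹' Ici 0) := isCompact_Icc.of_isClosed_subset hclosed inter_subset_left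
  obtain ⟨l, ⟨hl1, hl2⟩, hl3⟩ := hcomp.exists_isGreatest ⟨θ, left_mem_Icc.2 hθ.2.le, hGθ⟩
  have hlG : 0 ≤ G l := hl2
  have hlβ : l < β := by
    rcases eq_or_lt_of_le hl1.2 with h | h
    · rw [h] at hlG; linarith
    · exact h
  have hmax : ∀ z, l < z → z ≤ β → G z < 0 := by
    intro z hz1 hz2
    by_contra h
    push Not at h
    have := hl3 ⟨⟨by linarith [hl1.1], hz2⟩, h⟩
    linarith
  -- `G l = 0`
  have hGl : G l = 0 := by
    refine le_antisymm ?_ hlG
    by_contra h
    push Not at h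
    have hcl := (hGd l ⟨by linarith [hl1.1], by linarith⟩).continuousAt
    have h1 := hcl.eventually (lt_mem_nhds h)
    rw [Metric.eventually_nhds_iff] at h1
    obtain ⟨ε, hε, h2⟩ := h1
    set z := l + min (ε / 2) (β - l) with hz'
    have hz1 : l < z := by
      have : 0 < min (ε / 2) (β - l) := lt_min (by linarith) (by linarith)
      linarith
    have hz2 : z ≤ β := by
      have := min_le_right (ε / 2) (β - l)
      linarith
    have h3 := h2 (show dist z l < ε by
      rw [Real.dist_eq, abs_of_pos (by linarith)]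
      have := min_le_left (ε / 2) (β - l)
      linarith)
    linarith [hmax z hz1 hz2]
  have hlθ : θ < l := by
    rcases eq_or_lt_of_le hl1.1 with h | h
    · exfalso
      rw [← h] at hGl
      simp only [hG, sub_self] at hGl
      have := hy'pos (b - θ) ⟨by linarith [hθ.2], by linarith⟩
      norm_num at hGl
      linarith
    · exact h
  -- the derivative of `G` at `l` is positive
  have hYl : y' (b - l) = c ^ 2 / 8 * (l - θ) ^ 2 := by
    have : y' (b - l) - c ^ 2 / 8 * (l - θ) ^ 2 = 0 := hGl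
    linarith
  have hsq : √(2 * y' (b - l)) = c / 2 * (l - θ) := by
    rw [hYl, show 2 * (c ^ 2 / 8 * (l - θ) ^ 2) = (c / 2 * (l - θ)) ^ 2 by ring]
    exact Real.sqrt_sq (mul_nonneg (by linarith) (by linarith))
  have hder := hGd l ⟨by linarith, by linarith⟩
  have hpos' : 0 < -(f l - (c - m) * √(2 * y' (b - l))) - c ^ 2 / 4 * (l - θ) := by
    rw [hsq]
    have h1 := hbound l ⟨hlθ.le, hlβ.le⟩
    have h2 : 0 < l - θ := by linarith
    have h3 : m * c ≤ c ^ 2 / 8 := by nlinarith
    have h4 : 0 < c ^ 2 * (l - θ) := by positivity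
    nlinarith
  obtain ⟨ε, hε, hright⟩ := exists_right hder hpos'
  set z := l + min (ε / 2) (β - l) with hz'
  have hz1 : l < z := by
    have : 0 < min (ε / 2) (β - l) := lt_min (by linarith) (by linarith)
    linarith
  have hz2 : z ≤ β := by
    have := min_le_right (ε / 2) (β - l)
    linarith
  have hz3 : z < l + ε := by
    have := min_le_left (ε / 2) (β - l)
    linarith
  have := hright z hz1 hz3
  rw [hGl] at this
  linarith [hmax z hz1 hz2]

end Pool.Agent.H85.RF.TE3
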